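import Pool.Agent.MP_e1dc65_gt.k.CechA
import Pool.Agent.MP_e1dc65_gt.k.Std
import Pool.Agent.MP_e1dc65_gt.t.Core

/-! PROJECT HC, spin calculus: lifting and uniqueness over sets without double covers. -/

open scoped ContDiff Manifold Topology Quaternion Matrix
open Set Filter Function Module Pool.Agent.MP_c8d41b_gt.GF

noncomputable section

namespace Pool.Agent.MP_e1dc65_gt

section Perf
variable {Z Z' : Type} [TopologicalSpace Z] [TopologicalSpace Z'] {S S' : Set Z}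

theorem perf_empty : Perf (∅ : Set Z) := fun _ _ _ _ => ⟨fun _ => 1, fun _ _ _ h => h.source.elim⟩

theorem perf_singleton (x : Z) : Perf {x} := fun _ _ _ h =>
  ⟨fun _ => 1, fun _ _ _ hγ => by rw [h.const hγ.source fun t => (hγ t).trans hγ.source.symm, one_mul]⟩

/-- a disjoint union of relatively open pieces -/
theorem perf_of_pieces {I : Type} {V : I → Set Z} (ho : ∀ a, IsOpen (V a))
    (hd : Pairwise fun a b => Disjoint (S ∩ V a) (S ∩ V b)) (hc : S ⊆ ⋃ a, V a)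
    (h : ∀ a, Perf (S ∩ V a)) : Perf S := by
  classical
  intro A _ τ hτ
  choose s hs using fun a => h a A τ (hτ.mono inter_subset_left)
  have hc' : ∀ x ∈ S, ∃ a, x ∈ V a := fun x hx => mem_iUnion.1 (hc hx)
  refine ⟨fun x => if h : x ∈ S then s (hc' x h).choose x else 1,
    hτ.par_of_local subset_rfl fun x hx => ?_⟩
  obtain ⟨a, ha⟩ := hc' x hx
  refine ⟨V a, (ho a).mem_nhds ha, (hs a).congr fun y hy => ?_⟩
  have : (hc' y hy.1).choose = a := by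
    by_contra e
    exact disjoint_left.1 (hd e) ⟨hy.1, (hc' y hy.1).choose_spec⟩ hy
  simp only [dif_pos hy.1, this]

theorem perf_iUnion {I : Type} {V : I → Set Z} (ho : ∀ a, IsOpen (V a))
    (hd : Pairwise fun a b => Disjoint (V a) (V b)) (h : ∀ a, Perf (V a)) : Perf (⋃ a, V a) :=
  perf_of_pieces ho (fun _ _ e => (hd e).mono inter_subset_right inter_subset_right) subset_rfl
    fun a => (inter_eq_right.2 (subset_iUnion V a)).symm ▸ h a

theorem Perf.union (h : Perf S) (h' : Perf S') (ho : IsOpen S) (ho' : IsOpen S')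
    (hd : Disjoint S S') : Perf (S ∪ S') := by
  rw [union_eq_iUnion]
  exact perf_iUnion (Bool.forall_bool.2 ⟨ho', ho⟩) (pairwise_disjoint_on_bool.2 hd)
    (Bool.forall_bool.2 ⟨h', h⟩)

/-- retracts -/
theorem Perf.retract {T : Set Z'} (h : Perf S) {f : Z → Z'} {g : Z' → Z} (hf : ContinuousOn f S)
    (hg : ContinuousOn g T) (m : MapsTo f S T) (m' : MapsTo g T S) (e : ∀ y ∈ T, f (g y) = y) :
    Perf T := by
  intro A _ τ hτ
  obtain ⟨s, hs⟩ := h A _ ((pullT_pull f hf τ).hol hτ hf m)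
  refine ⟨fun y => s (g y), fun x y γ hγ => ?_⟩
  exact (hs _ _ (push g hg γ hγ) (in_push hg hγ hγ m')).trans (congrArg _
    (pullT_pull f hf τ _ _ _ (in_push hg hγ hγ m') _ _ γ fun t => (e _ (hγ t)).symm))

theorem Perf.image (h : Perf S) {f : Z → Z'} {g : Z' → Z} (hf : ContinuousOn f S)
    (hg : ContinuousOn g (f '' S)) (e : ∀ x ∈ S, g (f x) = x) : Perf (f '' S) :=
  h.retract hf hg (mapsTo_image f S) (by rintro _ ⟨x, hx, rfl⟩; rwa [e x hx])
    (by rintro _ ⟨x, hx, rfl⟩; rw [e x hx])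

/-- a set that deforms into a subset without abelian covers -/
theorem Perf.deform (h : Perf S') (hs : S' ⊆ S) {H : ℝ × Z → Z} (hH : ContinuousOn H (Icc 0 1 ×ˢ S))
    (m : MapsTo H (Icc 0 1 ×ˢ S) S) (h0 : ∀ x ∈ S, H (0, x) = x) (h1 : ∀ x ∈ S, H (1, x) ∈ S') :
    Perf S := fun A _ τ hτ => hτ.deform hH m h0 h1 (h A τ (hτ.mono hs))

/-- product with a convex set -/
theorem Perf.prod_convex {V : Type} [NormedAddCommGroup V] [NormedSpace ℝ V] {J : Set V}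
    (h : Perf S) (hJ : Convex ℝ J) : Perf (S ×ˢ J) := by
  rcases J.eq_empty_or_nonempty with rfl | ⟨c, hc⟩
  · rw [prod_empty]; exact perf_empty
  refine Perf.deform (S' := S ×ˢ {c}) (H := fun p => (p.2.1, (1 - p.1) • p.2.2 + p.1 • c))
    (h.retract (f := fun x => (x, c)) (g := Prod.fst) (by fun_prop) (by fun_prop)
      (fun x hx => ⟨hx, rfl⟩) (fun _ hp => hp.1) fun y hy => Prod.ext rfl hy.2.symm)
    (prod_mono subset_rfl (singleton_subset_iff.2 hc)) (by fun_prop)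
    (fun p hp => ⟨hp.2.1, hJ hp.2.2 hc (sub_nonneg.2 hp.1.2) hp.1.1 (sub_add_cancel _ _)⟩)
    (fun x _ => by simp) fun x hx => ⟨hx.1, by simp⟩

end Perf

variable {E E' : Type} [NormedAddCommGroup E] [NormedSpace ℝ E] [FiniteDimensional ℝ E]
  [NormedAddCommGroup E'] [NormedSpace ℝ E'] [FiniteDimensional ℝ E']
  {C : SpinCover} {X : Mf E} {Y : Mf E'} {U U' V : Set X} {x : X}

omit [FiniteDimensional ℝ E] [FiniteDimensional ℝ E'] in
theorem OE.perf {f : X → Y} (h : OE X Y f U) (hV : V ⊆ U) (hP : Perf V) : Perf (f '' V) :=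
  hP.image (h.sm.contOn.mono hV) (h.symm.sm.contOn.mono (image_mono hV)) fun _ hx => h.left (hV hx)

omit [FiniteDimensional ℝ E] [FiniteDimensional ℝ E'] in
theorem OE.sc {f : X → Y} (h : OE X Y f U) (hV : V ⊆ U) (hP : SC V) : SC (f '' V) :=
  hP.image (h.sm.contOn.mono hV) (h.symm.sm.contOn.mono (image_mono hV)) fun _ hx => h.left (hV hx)

section Core
variable {Z : Type} [TopologicalSpace Z] [LocallyPathConnectedSpace Z] {S : Set Z}

/-- a cocycle with values in the kernel is a coboundary -/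
theorem SpinCover.cobdry {J : Type} (hS : IsOpen S) (hP : Perf S) {O : J → Set Z}
    (hO : ∀ a, IsOpen (O a)) (hc : ∀ x ∈ S, ∃ a, x ∈ O a) {κ : J → J → Z → C.G}
    (h1 : ∀ a b, ContinuousOn (κ a b) (S ∩ O a ∩ O b))
    (h2 : ∀ a b, ∀ x ∈ S ∩ O a ∩ O b, C.π (κ a b x) = 1)
    (h3 : ∀ a b c, ∀ x ∈ S ∩ O a ∩ O b ∩ O c, κ a b x * κ b c x = κ a c x) :
    ∃ l : J → Z → C.G, (∀ a, ContinuousOn (l a) (S ∩ O a)) ∧ (∀ a x, C.π (l a x) = 1) ∧
      ∀ a b, ∀ x ∈ S ∩ O a ∩ O b, l a x = κ a b x * l b x := by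
  classical
  let : CommGroup C.π.ker := { (inferInstance : Group C.π.ker) with
    mul_comm := fun a b => Subtype.ext (C.ker_comm b.2 a) }
  let r : C.G → C.π.ker := fun g => if h : C.π g = 1 then ⟨g, h⟩ else 1
  have hr : ∀ g, C.π g = 1 → (r g : C.G) = g := fun g h => by simp only [r, dif_pos h]
  obtain ⟨τ, s, t1, t2, t3⟩ := cech Z C.π.ker J S O (fun a b x => r (κ a b x)) hO hc
    (fun a b => (SpinCover.lc_ker (h1 a b) (h2 a b)).comp r) fun a b c x hx => Subtype.ext (by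
      rw [Subgroup.coe_mul, hr _ (h2 a b x hx.1), hr _ (h2 b c x ⟨⟨hx.1.1.1, hx.1.2⟩, hx.2⟩),
        hr _ (h2 a c x ⟨hx.1.1, hx.2⟩), h3 a b c x hx])
  obtain ⟨σ, hσ⟩ := hP _ τ t1
  refine ⟨fun a x => (s a x * (σ x)⁻¹ : C.π.ker), fun a => ?_, fun a x => (s a x * (σ x)⁻¹).2,
    fun a b x hx => ?_⟩
  · exact (((hσ.mono inter_subset_left).lc_diff (t2 a) (hS.inter (hO a))).comp Subtype.val).contOn
  · beta_reduce
    rw [t3 a b x hx, mul_assoc, Subgroup.coe_mul, hr _ (h2 a b x hx)]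

theorem grp1 {G : Type} [Group G] {a b c g h g' h' : G}
    (e : g'⁻¹ * (b * h * (h' * c)⁻¹) = b * h * (h' * c)⁻¹ * g'⁻¹) :
    a * g * (g' * b)⁻¹ * (b * h * (h' * c)⁻¹) = a * (g * h) * (g' * h' * c)⁻¹ :=
  calc _ = a * g * b⁻¹ * (g'⁻¹ * (b * h * (h' * c)⁻¹)) := by simp only [mul_inv_rev, mul_assoc]
    _ = _ := by rw [e]; group

theorem grp2 {G : Type} [Group G] {a b g g' l : G} (e : g' * l = l * g') :
    (a * g * (g' * b)⁻¹ * l)⁻¹ * a * g = g' * (l⁻¹ * b) :=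
  calc _ = l⁻¹ * g' * b := by group
    _ = _ := by rw [← (Commute.inv_right (show Commute g' l from e)).eq, mul_assoc]

/-- an isomorphism of the matrix cocycles lifts -/
theorem SpinCover.cmp {ι ι' : Type} (hS : IsOpen S) (hP : Perf S) {W : ι → Set Z} {W' : ι' → Set Z}
    (hW : ∀ i, IsOpen (W i)) (hW' : ∀ k, IsOpen (W' k)) (hs : ∀ k i, W' k ∩ W i ⊆ S)
    (hc : ∀ x ∈ S, ∃ k i, x ∈ W' k ∧ x ∈ W i) {g : ι → ι → Z → C.G} {g' : ι' → ι' → Z → C.G}
    (g1 : ∀ i j, ContinuousOn (g i j) (W i ∩ W j)) (g1' : ∀ i j, ContinuousOn (g' i j) (W' i ∩ W' j))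
    (g2 : ∀ i j k x, x ∈ W i → x ∈ W j → x ∈ W k → g i j x * g j k x = g i k x)
    (g2' : ∀ i j k x, x ∈ W' i → x ∈ W' j → x ∈ W' k → g' i j x * g' j k x = g' i k x)
    {A : ι' → ι → Z → M5} (A1 : ∀ k i, ContinuousOn (A k i) (W' k ∩ W i))
    (A2 : ∀ k i, ∀ x ∈ W' k ∩ W i, 0 < (A k i x).det)
    (A3 : ∀ k i k' i' x, x ∈ W' k → x ∈ W i → x ∈ W' k' → x ∈ W i' →
      A k i x * C.π (g i i' x) = C.π (g' k k' x) * A k' i' x) :
    ∃ c : ι' → ι → Z → C.G, (∀ k i, ContinuousOn (c k i) (W' k ∩ W i)) ∧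
      (∀ k i x, x ∈ W' k → x ∈ W i → C.π (c k i x) = A k i x) ∧
      ∀ k i k' i' x, x ∈ W' k → x ∈ W i → x ∈ W' k' → x ∈ W i' →
        c k i x * g i i' x = g' k k' x * c k' i' x := by
  classical
  have key : ∀ a : S, ∃ (k : ι') (i : ι) (O : Set Z) (s : Z → C.G), IsOpen O ∧ a.1 ∈ O ∧
      O ⊆ W' k ∧ O ⊆ W i ∧ ContinuousOn s O ∧ ∀ x ∈ O, C.π (s x) = A k i x := fun a => by
    obtain ⟨k, i, hk, hi⟩ := hc a a.2
    obtain ⟨N, hN, s, s1, s2⟩ := C.sec _ (A2 k i a ⟨hk, hi⟩)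
    have hn := ((hW' k).inter (hW i)).mem_nhds ⟨hk, hi⟩
    obtain ⟨O, o1, o2, o3⟩ := mem_nhds_iff.1
      (inter_mem hn (((A1 k i).continuousAt hn).preimage_mem_nhds hN))
    exact ⟨k, i, O, fun x => s (A k i x), o2, o3, fun x hx => (o1 hx).1.1, fun x hx => (o1 hx).1.2,
      s1.comp ((A1 k i).mono fun x hx => (o1 hx).1) fun x hx => (o1 hx).2,
      fun x hx => s2 _ (o1 hx).2⟩
  choose q p O s o1 o2 o3 o4 s1 s2 using key
  have k2 : ∀ a b, ∀ x ∈ S ∩ O a ∩ O b,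
      C.π (s a x * g (p a) (p b) x * (g' (q a) (q b) x * s b x)⁻¹) = 1 := fun a b x hx =>
    C.π_div (by
      rw [map_mul, map_mul, s2 a x hx.1.2, s2 b x hx.2]
      exact A3 _ _ _ _ x (o3 a hx.1.2) (o4 a hx.1.2) (o3 b hx.2) (o4 b hx.2))
  obtain ⟨l, l1, l2, l3⟩ := SpinCover.cobdry hS hP o1 (fun x hx => ⟨⟨x, hx⟩, o2 _⟩)
    (κ := fun a b x => s a x * g (p a) (p b) x * (g' (q a) (q b) x * s b x)⁻¹)
    (fun a b => (((s1 a).mono fun _ h => h.1.2).mul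
      ((g1 _ _).mono fun _ h => ⟨o4 a h.1.2, o4 b h.2⟩)).mul
        (((g1' _ _).mono fun _ h => ⟨o3 a h.1.2, o3 b h.2⟩).mul ((s1 b).mono fun _ h => h.2)).inv)
    k2 fun a b c x hx => by
      rw [← g2 _ _ _ x (o4 a hx.1.1.2) (o4 b hx.1.2) (o4 c hx.2),
        ← g2' _ _ _ x (o3 a hx.1.1.2) (o3 b hx.1.2) (o3 c hx.2)]
      exact grp1 (C.ker_comm (k2 b c x ⟨⟨hx.1.1.1, hx.1.2⟩, hx.2⟩) _)
  have d3 : ∀ a b x, x ∈ O a → x ∈ O b → (l a x)⁻¹ * s a x * g (p a) (p b) x =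
      g' (q a) (q b) x * ((l b x)⁻¹ * s b x) := fun a b x ha hb => by
    have hx : x ∈ S := hs _ _ ⟨o3 a ha, o4 a ha⟩
    rw [l3 a b x ⟨⟨hx, ha⟩, hb⟩]
    exact grp2 (C.ker_comm (l2 b x) _)
  let d : S → ι' → ι → Z → C.G := fun a k i x => g' k (q a) x * ((l a x)⁻¹ * s a x) * g (p a) i x
  have d4 : ∀ a b k i k' i' x, x ∈ O a → x ∈ O b → x ∈ W' k → x ∈ W i → x ∈ W' k' → x ∈ W i' →
      d a k i x * g i i' x = g' k k' x * d b k' i' x := fun a b k i k' i' x ha hb hk hi hk' hi' => by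
    simp only [d]
    rw [mul_assoc, g2 _ _ _ x (o4 a ha) hi hi', ← g2 _ _ _ x (o4 a ha) (o4 b hb) hi', ← mul_assoc,
      mul_assoc (g' k (q a) x), d3 a b x ha hb, ← mul_assoc, g2' _ _ _ x hk (o3 a ha) (o3 b hb),
      ← g2' _ _ _ x hk hk' (o3 b hb)]
    simp only [mul_assoc]
  have gs : ∀ i x, x ∈ W i → g i i x = 1 := fun i x h => mul_eq_left.1 (g2 i i i x h h h)
  have gs' : ∀ i x, x ∈ W' i → g' i i x = 1 := fun i x h => mul_eq_left.1 (g2' i i i x h h h)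
  refine ⟨fun k i x => if h : x ∈ S then d ⟨x, h⟩ k i x else 1, fun k i x hx => ?_,
    fun k i x hk hi => ?_, fun k i k' i' x hk hi hk' hi' => ?_⟩
  · let a : S := ⟨x, hs k i hx⟩
    have hn : W' k ∩ W i ∩ O a ∈ 𝓝 x := (((hW' k).inter (hW i)).inter (o1 a)).mem_nhds ⟨hx, o2 a⟩
    have hd : ContinuousOn (d a k i) (W' k ∩ W i ∩ O a) :=
      (((g1' _ _).mono fun _ h => ⟨h.1.1, o3 a h.2⟩).mul
        (((l1 a).mono fun _ h => ⟨hs k i h.1, h.2⟩).inv.mul ((s1 a).mono fun _ h => h.2))).mul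
          ((g1 _ _).mono fun _ h => ⟨o4 a h.2, h.1.2⟩)
    refine ((hd.continuousAt hn).congr ?_).continuousWithinAt
    filter_upwards [hn] with y hy
    have := d4 a ⟨y, hs k i hy.1⟩ k i k i y hy.2 (o2 _) hy.1.1 hy.1.2 hy.1.1 hy.1.2
    rwa [gs i y hy.1.2, gs' k y hy.1.1, mul_one, one_mul, ← dif_pos (hs k i hy.1)
      (t := fun h => d ⟨y, h⟩ k i y) (e := fun _ => 1)] at this
  · have hx := hs k i ⟨hk, hi⟩
    have ha := o2 ⟨x, hx⟩
    simp only [dif_pos hx, d, map_mul, C.π_inv, l2, inv_one, one_mul, s2 _ x ha]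
    rw [← A3 k i _ _ x hk hi (o3 _ ha) (o4 _ ha), mul_assoc, ← map_mul, g2 _ _ _ x hi (o4 _ ha) hi,
      gs i x hi, map_one, mul_one]
  · have hx := hs k i ⟨hk, hi⟩
    simp only [dif_pos hx]
    exact d4 _ _ k i k' i' x (o2 _) (o2 _) hk hi hk' hi'

/-- LIFT: a continuous map to `GL₅⁺` lifts on an open set without double covers -/
theorem SpinCover.lift (C : SpinCover) (hS : IsOpen S) (hP : Perf S) {A : Z → M5}
    (h : ContinuousOn A S) (hd : ∀ x ∈ S, 0 < (A x).det) :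
    ∃ a : Z → C.G, ContinuousOn a S ∧ ∀ x ∈ S, C.π (a x) = A x := by
  obtain ⟨c, c1, c2, -⟩ := SpinCover.cmp (C := C) (W := fun _ : Unit => S) (W' := fun _ : Unit => S)
    hS hP (fun _ => hS) (fun _ => hS) (fun _ _ => inter_subset_left) (fun x hx => ⟨(), (), hx, hx⟩)
    (g := fun _ _ _ => 1) (g' := fun _ _ _ => 1) (fun _ _ => continuousOn_const)
    (fun _ _ => continuousOn_const) (fun _ _ _ _ _ _ _ => mul_one _) (fun _ _ _ _ _ _ _ => mul_one _)
    (A := fun _ _ => A) (fun _ _ => h.mono inter_subset_left) (fun _ _ x hx => hd x hx.1)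
    (fun _ _ _ _ _ _ _ _ _ => by rw [map_one, mul_one, one_mul])
  exact ⟨c () (), by simpa using c1 () (), fun x hx => c2 _ _ x hx hx⟩

/-- the lift with a given value at a given point -/
theorem SpinCover.lift_at (C : SpinCover) (hS : IsOpen S) (hP : Perf S) {A : Z → M5}
    (h : ContinuousOn A S) (hd : ∀ x ∈ S, 0 < (A x).det) {x : Z} (hx : x ∈ S) {g : C.G}
    (hg : C.π g = A x) : ∃ a : Z → C.G, ContinuousOn a S ∧ (∀ x ∈ S, C.π (a x) = A x) ∧ a x = g := by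
  obtain ⟨a, a1, a2⟩ := C.lift hS hP h hd
  rcases C.eq_or (hg.trans (a2 x hx).symm) with e | e
  · exact ⟨a, a1, a2, e.symm⟩
  · exact ⟨fun y => C.ε * a y, continuousOn_const.mul a1,
      fun y hy => (C.π_eps_mul _).trans (a2 y hy), e.symm⟩

end Core

/-- a section over the image of a star-shaped set of matrices: maps from any space lift -/
theorem SpinCover.lift_star (C : SpinCover) {D : Set M5} {B : M5} (hB : B ∈ D)
    (hD : StarConvex ℝ B D) (hd : ∀ A ∈ D, 0 < A.det) {g : C.G} (hg : C.π g = B) :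
    ∃ s : M5 → C.G, ContinuousOn s D ∧ (∀ A ∈ D, C.π (s A) = A) ∧ s B = g := by
  have : LocallyPathConnectedSpace M5 :=
    inferInstanceAs (LocallyPathConnectedSpace (Fin 5 → Fin 5 → ℝ))
  let D' : Set M5 := {A | ∀ t ∈ Icc (0 : ℝ) 1, 0 < ((1 - t) • B + t • A).det}
  have hdc : Continuous fun p : M5 × ℝ => ((1 - p.2) • B + p.2 • p.1).det :=
    Continuous.matrix_det (by fun_prop)
  have ho : IsOpen D' := isOpen_iff_mem_nhds.2 fun A hA =>
    isCompact_Icc.eventually_forall_of_forall_eventually fun t ht =>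
      hdc.continuousAt.eventually (lt_mem_nhds (hA t ht))
  have hs : D ⊆ D' := fun A hA t ht => hd _ (hD hA (sub_nonneg.2 ht.2) ht.1 (sub_add_cancel _ _))
  have hP : Perf D' := (perf_singleton B).deform (singleton_subset_iff.2 (hs hB))
    (H := fun p => p.1 • B + (1 - p.1) • p.2) (by fun_prop) (fun p hp t ht => by
      have := hp.2 (t * (1 - p.1)) ⟨mul_nonneg ht.1 (sub_nonneg.2 hp.1.2),
        mul_le_one₀ ht.2 (sub_nonneg.2 hp.1.2) (sub_le_self _ hp.1.1)⟩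
      convert this using 2
      module) (fun A _ => by simp) fun A _ => by simp
  obtain ⟨s, s1, s2, s3⟩ := C.lift_at ho hP (A := fun A => A) continuousOn_id
    (fun A hA => by simpa using hA 1 ⟨zero_le_one, le_rfl⟩) (hs hB) hg
  exact ⟨s, s1.mono hs, fun A hA => s2 A (hs hA), s3⟩

theorem det_contAt {Z : Type} [TopologicalSpace Z] {A : Z → M5} {x : Z} (h : ContinuousAt A x) :
    ContinuousAt (fun y => (A y).det) x :=
  have h1 : Continuous fun B : M5 => B.det := Continuous.matrix_det continuous_id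
  h1.continuousAt.tendsto.comp h

/-! ### Uniqueness and gluing -/

namespace Spin
variable (sp : Spin C X U) (sp' : Spin C X U')

/-- the two structures define the same orientation -/
def Same : Prop := ∀ k i x, x ∈ sp'.W k → x ∈ sp.W i → 0 < (tm (sp'.Θ k x) (sp.Θ i x)).det

variable {sp sp'}

theorem det_of {k k' i i'} (hk : x ∈ sp'.W k) (hi : x ∈ sp.W i) (hk' : x ∈ sp'.W k')
    (hi' : x ∈ sp.W i') (h : 0 < (tm (sp'.Θ k x) (sp.Θ i x)).det) :
    0 < (tm (sp'.Θ k' x) (sp.Θ i' x)).det := by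
  rw [← tm_mul (sp.inv hi), ← tm_mul (sp'.inv hk), Matrix.det_mul, Matrix.det_mul]
  exact mul_pos (mul_pos (sp'.det_pos hk' hk) h) (sp.det_pos hi hi')

theorem same_of (h : ∀ x ∈ U ∩ U', ∃ k i, x ∈ sp'.W k ∧ x ∈ sp.W i ∧
    0 < (tm (sp'.Θ k x) (sp.Θ i x)).det) : sp.Same sp' := fun k i x hk hi =>
  let ⟨_, _, a, b, c⟩ := h x ⟨sp.sub i hi, sp'.sub k hk⟩; det_of a b hk hi c

theorem same_of_pos {o : X → Lam E}
    (h : ∀ i, ∀ x ∈ sp.W i, x ∈ U' → PosB (Pi.basisFun ℝ (Fin 5)) (o x) (sp.Θ i x))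
    (h' : ∀ k, ∀ x ∈ sp'.W k, x ∈ U → PosB (Pi.basisFun ℝ (Fin 5)) (o x) (sp'.Θ k x)) :
    sp.Same sp' := fun k i x hk hi =>
  ((h' k x hk (sp.sub i hi)).iff_tm (sp'.inv hk)).1 (h i x hi (sp'.sub k hk))

omit [FiniteDimensional ℝ E] in
theorem det_tm_neg (a b : E →L[ℝ] Rn 5) : (tm (-a) b).det = -(tm a b).det := by
  have : tm (-a) b = -tm a b := m5_ext fun v => by
    rw [Matrix.neg_mulVec, tm_mulVec', tm_mulVec', neg_apply]
  rw [this, Matrix.det_neg]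
  simp
  norm_num

/-- on a connected overlap the orientations agree, possibly after the flip -/
theorem same_or (sp : Spin C X U) (sp' : Spin C X U') (h : IsPreconnected (U ∩ U')) :
    sp.Same sp' ∨ sp.Same sp'.neg := by
  have hl : LC (fun x => ∀ k i, x ∈ sp'.W k → x ∈ sp.W i → 0 < (tm (sp'.Θ k x) (sp.Θ i x)).det)
      (U ∩ U') := fun x hx => by
    obtain ⟨i, hi⟩ := sp.cov x hx.1
    obtain ⟨k, hk⟩ := sp'.cov x hx.2
    have hc : ContinuousAt (fun y => (tm (sp'.Θ k y) (sp.Θ i y)).det) x :=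
      det_contAt ((sp'.cof k x hk).1.tm_cont (sp.cof i x hi).1 (sp.inv hi))
    have e : ∀ y, y ∈ sp'.W k → y ∈ sp.W i → ((∀ k i, y ∈ sp'.W k → y ∈ sp.W i →
        0 < (tm (sp'.Θ k y) (sp.Θ i y)).det) ↔ 0 < (tm (sp'.Θ k y) (sp.Θ i y)).det) :=
      fun y a b => ⟨fun h => h k i a b, fun h _ _ a' b' => det_of a b a' b' h⟩
    refine mem_nhdsWithin_of_mem_nhds ?_
    rcases (det_tm_ne (sp'.inv hk) (sp.inv hi)).lt_or_gt with h0 | h0
    · filter_upwards [hc.eventually (gt_mem_nhds h0), (sp'.op k).mem_nhds hk, (sp.op i).mem_nhds hi]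
        with y h1 a b
      rw [e y a b, e x hk hi, eq_iff_iff]
      exact iff_of_false h1.not_gt h0.not_gt
    · filter_upwards [hc.eventually (lt_mem_nhds h0), (sp'.op k).mem_nhds hk, (sp.op i).mem_nhds hi]
        with y h1 a b
      rw [e y a b, e x hk hi, eq_iff_iff]
      exact iff_of_true h1 h0
  by_cases h1 : sp.Same sp'
  · exact .inl h1
  refine .inr fun k i x hk hi => ?_
  change 0 < (tm (-sp'.Θ k x) _).det
  rw [det_tm_neg, neg_pos]
  refine (det_tm_ne (sp'.inv hk) (sp.inv hi)).lt_or_gt.resolve_right fun h0 => h1 fun k' i' y a b => ?_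
  have := hl.eq_of_conn h ⟨sp.sub i hi, sp'.sub k hk⟩ ⟨sp.sub i' b, sp'.sub k' a⟩
  exact this.mp (fun _ _ a' b' => det_of (sp' := sp') hk hi a' b' h0) k' i' a b

/-- UNIQ: uniqueness over an overlap without double covers -/
theorem exists_cmp (hP : Perf (U ∩ U')) (h : sp.Same sp') : ∃ c, Cmp sp sp' c := by
  obtain ⟨c, c1, c2, c3⟩ := SpinCover.cmp (sp.isOpen.inter sp'.isOpen) hP sp.op sp'.op
    (fun k i _ h => ⟨sp.sub i h.2, sp'.sub k h.1⟩)
    (fun x hx => let ⟨i, hi⟩ := sp.cov x hx.1; let ⟨k, hk⟩ := sp'.cov x hx.2; ⟨k, i, hk, hi⟩)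
    sp.cont sp'.cont (fun _ _ _ _ => sp.g_mul) (fun _ _ _ _ => sp'.g_mul)
    (A := fun k i x => tm (sp'.Θ k x) (sp.Θ i x)) (fun k i => (sp'.cof k).tm_contOn (sp.cof i))
    (fun k i x hx => h k i x hx.1 hx.2) fun k i k' i' x a b a' b' => by
      rw [sp.proj i i' x ⟨b, b'⟩, sp'.proj k k' x ⟨a, a'⟩, tm_mul (sp.inv b), tm_mul (sp'.inv a')]
  exact ⟨c, c1, c2, c3⟩

/-- `sp'` contains all the charts of `sp` -/
structure Sub (sp : Spin C X U) (sp' : Spin C X U') (e : sp.ι → sp'.ι) : Prop where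
  W : ∀ i, sp'.W (e i) = sp.W i
  Θ : ∀ i, sp'.Θ (e i) = sp.Θ i
  g : ∀ i j, sp'.g (e i) (e j) = sp.g i j

theorem Sub.trans {U'' : Set X} {sp'' : Spin C X U''} {e e'} (h : Sub sp sp' e) (h' : Sub sp' sp'' e') :
    Sub sp sp'' fun i => e' (e i) :=
  ⟨fun i => (h'.W _).trans (h.W i), fun i => (h'.Θ _).trans (h.Θ i),
    fun i j => (h'.g _ _).trans (h.g i j)⟩

/-- SPINGLUE -/
theorem glue (hP : Perf (U ∩ U')) (h : sp.Same sp') {T : Set X} (hT : U ∪ U' = T) :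
    ∃ (s : Spin C X T) (e : sp.ι → s.ι) (e' : sp'.ι → s.ι), Sub sp s e ∧ Sub sp' s e' ∧
      ∀ a, (∃ i, e i = a) ∨ ∃ k, e' k = a :=
  let ⟨_, hc⟩ := exists_cmp hP h
  ⟨hc.glue.cast hT, .inl, .inr, ⟨fun _ => rfl, fun _ => rfl, fun _ _ => rfl⟩,
    ⟨fun _ => rfl, fun _ => rfl, fun _ _ => rfl⟩,
    Sum.rec (fun i => .inl ⟨i, rfl⟩) fun k => .inr ⟨k, rfl⟩⟩

/-- SPINGLUE over a connected overlap, no orientations needed; the charts of `sp` are kept -/
theorem glue_conn (sp : Spin C X U) (sp' : Spin C X U') (hP : Perf (U ∩ U'))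
    (hc : IsPreconnected (U ∩ U')) {T : Set X} (hT : U ∪ U' = T) :
    ∃ (s : Spin C X T) (e : sp.ι → s.ι), Sub sp s e := by
  rcases sp.same_or sp' hc with h | h <;> obtain ⟨s, e, -, h, -⟩ := glue hP h hT <;> exact ⟨s, e, h⟩

/-- ADD: a further chart over an open set `V` with `U ∩ V` without double covers -/
theorem add (sp : Spin C X U) {Θ : X → E →L[ℝ] Rn 5} (hV : IsOpen V) (hΘ : Cof X 0 Θ V)
    (hP : Perf (U ∩ V)) (h : ∀ x ∈ U ∩ V, ∃ i, x ∈ sp.W i ∧ 0 < (tm (Θ x) (sp.Θ i x)).det)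
    {T : Set X} (hT : U ∪ V = T) :
    ∃ (s : Spin C X T) (e : sp.ι → s.ι) (p : s.ι), Sub sp s e ∧ s.W p = V ∧ s.Θ p = Θ ∧
      ∀ a, (∃ i, e i = a) ∨ a = p := by
  obtain ⟨s, e, e', h1, h2, h3⟩ := glue (sp' := single hV hΘ) hP
    (same_of fun x hx => let ⟨i, hi, h⟩ := h x hx; ⟨(), i, hx.2, hi, h⟩) hT
  exact ⟨s, e, e' (), h1, h2.W (), h2.Θ (), fun a => (h3 a).imp_right fun ⟨_, h⟩ => h.symm⟩

/-- a family of pairwise disjoint pieces is attached along connected overlaps -/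
theorem glue_fam (sp : Spin C X U) {I : Type} {V : I → Set X} (s : ∀ a, Spin C X (V a))
    (hd : Pairwise fun a b => Disjoint (V a) (V b)) (hP : ∀ a, Perf (U ∩ V a))
    (hc : ∀ a, IsPreconnected (U ∩ V a)) {T : Set X} (hT : U ∪ ⋃ a, V a = T) :
    ∃ (s : Spin C X T) (e : sp.ι → s.ι), Sub sp s e := by
  have : ∀ a, ∃ s' : Spin C X (V a), sp.Same s' := fun a =>
    (sp.same_or (s a) (hc a)).elim (fun h => ⟨_, h⟩) fun h => ⟨_, h⟩
  choose s' hs using this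
  obtain ⟨t, e, -, h, -⟩ := glue (sp' := sigma s' hd) (by
    rw [inter_iUnion]
    exact perf_iUnion (fun a => sp.isOpen.inter (s a).isOpen)
      (fun _ _ e => (hd e).mono inter_subset_right inter_subset_right) hP)
    (fun k => hs k.1 k.2) hT
  exact ⟨t, e, h⟩

end Spin

/-- a discrete set has pairwise disjoint neighbourhoods -/
theorem exists_disj {Z : Type} [TopologicalSpace Z] [TopologicalSpace.MetrizableSpace Z] {K : Set Z}
    (h : ∀ x ∈ K, ∀ᶠ y in 𝓝 x, y ∈ K → y = x) :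
    ∃ O : K → Set Z, (∀ a, O a ∈ 𝓝 a.1) ∧ (∀ a, ∀ y ∈ O a, y ∈ K → y = a) ∧
      Pairwise fun a b => Disjoint (O a) (O b) := by
  let := TopologicalSpace.metrizableSpaceMetric Z
  choose r r0 hr using fun a : K => Metric.eventually_nhds_iff.1 (h a a.2)
  refine ⟨fun a => Metric.ball a (r a / 2), fun a => Metric.ball_mem_nhds _ (half_pos (r0 a)),
    fun a y hy => hr a (lt_trans hy (half_lt_self (r0 a))), fun a b e => disjoint_left.2 fun y ha hb => ?_⟩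
  have h1 := dist_triangle_left a.1 b.1 y
  rw [Metric.mem_ball] at ha hb
  rcases le_total (r a) (r b) with h2 | h2
  · exact e (Subtype.ext (hr b (by linarith) a.2))
  · exact e (Subtype.ext (hr a (by rw [dist_comm]; linarith) b.2).symm)

/-- SPINPT: a spin structure on the cylinder over a 4-manifold extends over a discrete set -/
theorem Spin.pts (hd : finrank ℝ E = 4) {K : Set X} (hU : IsOpen U) (hK : K ⊆ U)
    (h : ∀ x ∈ K, ∀ᶠ y in 𝓝 x, y ∈ K → y = x) (sp : Spin C X.cyl ((U \ K) ×ˢ univ)) :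
    ∃ (s : Spin C X.cyl (U ×ˢ univ)) (e : sp.ι → s.ι), sp.Sub s e := by
  obtain ⟨O, o1, o2, o3⟩ := exists_disj h
  choose V v1 v2 v3 v4 v5 using fun a : K => X.exists_sc_punct (by omega) a.1
    (inter_mem (o1 a) (inter_mem (hU.mem_nhds (hK a.2)) (ch_src_nhds (X := X))))
  obtain ⟨L⟩ : Nonempty ((E × ℝ) ≃L[ℝ] Rn 5) :=
    FiniteDimensional.nonempty_continuousLinearEquiv_of_finrank_eq (by simp [hd])
  have e : ∀ a : K, ((U \ K) ×ˢ univ ∩ V a ×ˢ univ : Set (X × ℝ)) = (V a \ {a.1}) ×ˢ univ := fun a => by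
    ext p
    exact ⟨fun hp => ⟨⟨hp.2.1, fun e => hp.1.1.2 (e ▸ a.2)⟩, trivial⟩, fun hp =>
      ⟨⟨⟨(v3 a hp.1.1).2.1, fun k => hp.1.2 (o2 a _ (v3 a hp.1.1).1 k)⟩, trivial⟩, hp.1.1, trivial⟩⟩
  refine sp.glue_fam (V := fun a : K => V a ×ˢ univ) (fun a => Spin.single ((v1 a).prod isOpen_univ)
    ((((cof_ch (x := a.1)).mono fun y hy => (v3 a hy).2.2).cyl).ccomp L))
    (fun a b e => disjoint_left.2 fun p ha hb => disjoint_left.1 (o3 e) (v3 a ha.1).1 (v3 b hb.1).1)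
    (fun a => e a ▸ ((v5 a).prod sc_univ).perf)
    (fun a => e a ▸ ((v5 a).prod sc_univ).1.isConnected.isPreconnected) ?_
  ext p
  simp only [mem_union, mem_iUnion, mem_prod, mem_univ, and_true]
  refine ⟨fun hp => hp.elim (fun h => h.1) fun ⟨a, ha⟩ => (v3 a ha).2.1, fun hp => ?_⟩
  by_cases hk : p.1 ∈ K
  · exact .inr ⟨⟨_, hk⟩, v2 _⟩
  · exact .inl ⟨hp, hk⟩

end Pool.Agent.MP_e1dc65_gt
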